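import Pool.Agent.Helper50.HT.Stmts

/-!
# Sheet HT, row KLI: `K2 · p` is Lipschitz far from `0`
-/

set_option autoImplicit false

namespace Pool.Agent.Helper87.HT

open Pool.Agent.Helper95 Pool.Agent.Helper95.PW Pool.Agent.Helper95.LN Pool.Agent.Helper50.HT

/-- scalar product -/
def dt (x y : R3) : ℝ := x 0 * y 0 + x 1 * y 1 + x 2 * y 2

theorem nr_sq (y : R3) : nr y ^ 2 = y 0 ^ 2 + y 1 ^ 2 + y 2 ^ 2 := by
  unfold nr
  exact Real.sq_sqrt (by positivity)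

theorem nr_nonneg (y : R3) : 0 ≤ nr y := Real.sqrt_nonneg _

theorem cs (x y : R3) : |dt x y| ≤ nr x * nr y := by
  apply abs_le_of_sq_le_sq _ (mul_nonneg (nr_nonneg x) (nr_nonneg y))
  rw [mul_pow, nr_sq, nr_sq]
  unfold dt
  nlinarith [sq_nonneg (x 0 * y 1 - x 1 * y 0), sq_nonneg (x 0 * y 2 - x 2 * y 0),
    sq_nonneg (x 1 * y 2 - x 2 * y 1)]

theorem tri (u v : R3) : |nr u - nr v| ≤ nr (u - v) := by
  apply abs_le_of_sq_le_sq _ (nr_nonneg _)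
  have h := (abs_le.1 (cs u v)).2
  have h1 := nr_sq u
  have h2 := nr_sq v
  have h3 := nr_sq (u - v)
  simp only [Pi.sub_apply] at h3
  rw [h3]
  unfold dt at h
  nlinarith

theorem inv3 (a b q R : ℝ) (hR : 0 < R) (ha : R / 2 ≤ a) (ha2 : a ≤ 2 * R) (hb : R / 2 ≤ b)
    (hb2 : b ≤ 2 * R) (hq : |a - b| ≤ q) : |1 / a ^ 3 - 1 / b ^ 3| ≤ 768 * q / R ^ 4 := by
  have ha0 : 0 < a := by linarith
  have hb0 : 0 < b := by linarith
  have h3 : (R / 2) ^ 3 * (R / 2) ^ 3 ≤ a ^ 3 * b ^ 3 :=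
    mul_le_mul (pow_le_pow_left₀ (by positivity) ha 3) (pow_le_pow_left₀ (by positivity) hb 3)
      (by positivity) (by positivity)
  have h4 : a ^ 2 + a * b + b ^ 2 ≤ 12 * R ^ 2 := by nlinarith
  have h5 : (a ^ 2 + a * b + b ^ 2) / (a ^ 3 * b ^ 3) ≤ 768 / R ^ 4 := by
    rw [div_le_div_iff₀ (by positivity) (by positivity)]
    calc (a ^ 2 + a * b + b ^ 2) * R ^ 4 ≤ 12 * R ^ 2 * R ^ 4 :=
          mul_le_mul_of_nonneg_right h4 (by positivity)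
      _ = 768 * ((R / 2) ^ 3 * (R / 2) ^ 3) := by ring
      _ ≤ 768 * (a ^ 3 * b ^ 3) := mul_le_mul_of_nonneg_left h3 (by norm_num)
  have h6 : 1 / a ^ 3 - 1 / b ^ 3 = (b - a) * ((a ^ 2 + a * b + b ^ 2) / (a ^ 3 * b ^ 3)) := by
    field_simp
    ring
  rw [h6, abs_mul, abs_sub_comm b a, abs_of_nonneg (by positivity : 0 ≤
    (a ^ 2 + a * b + b ^ 2) / (a ^ 3 * b ^ 3))]
  calc |a - b| * ((a ^ 2 + a * b + b ^ 2) / (a ^ 3 * b ^ 3)) ≤ q * (768 / R ^ 4) :=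
        mul_le_mul hq h5 (by positivity) ((abs_nonneg _).trans hq)
    _ = 768 * q / R ^ 4 := by ring

theorem inv5 (a b q R : ℝ) (hR : 0 < R) (ha : R / 2 ≤ a) (ha2 : a ≤ 2 * R) (hb : R / 2 ≤ b)
    (hb2 : b ≤ 2 * R) (hq : |a - b| ≤ q) : |1 / a ^ 5 - 1 / b ^ 5| ≤ 81920 * q / R ^ 6 := by
  have ha0 : 0 < a := by linarith
  have hb0 : 0 < b := by linarith
  have h3 : (R / 2) ^ 5 * (R / 2) ^ 5 ≤ a ^ 5 * b ^ 5 :=
    mul_le_mul (pow_le_pow_left₀ (by positivity) ha 5) (pow_le_pow_left₀ (by positivity) hb 5)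
      (by positivity) (by positivity)
  have e1 : a ^ 4 ≤ (2 * R) ^ 4 := pow_le_pow_left₀ ha0.le ha2 4
  have e2 : a ^ 3 * b ≤ (2 * R) ^ 3 * (2 * R) :=
    mul_le_mul (pow_le_pow_left₀ ha0.le ha2 3) hb2 hb0.le (by positivity)
  have e3 : a ^ 2 * b ^ 2 ≤ (2 * R) ^ 2 * (2 * R) ^ 2 :=
    mul_le_mul (pow_le_pow_left₀ ha0.le ha2 2) (pow_le_pow_left₀ hb0.le hb2 2) (by positivity)
      (by positivity)
  have e4 : a * b ^ 3 ≤ (2 * R) * (2 * R) ^ 3 :=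
    mul_le_mul ha2 (pow_le_pow_left₀ hb0.le hb2 3) (by positivity) (by positivity)
  have e5 : b ^ 4 ≤ (2 * R) ^ 4 := pow_le_pow_left₀ hb0.le hb2 4
  have h4 : a ^ 4 + a ^ 3 * b + a ^ 2 * b ^ 2 + a * b ^ 3 + b ^ 4 ≤ 80 * R ^ 4 := by
    have e6 : 80 * R ^ 4 = (2 * R) ^ 4 + (2 * R) ^ 3 * (2 * R) + (2 * R) ^ 2 * (2 * R) ^ 2 +
        (2 * R) * (2 * R) ^ 3 + (2 * R) ^ 4 := by ring
    rw [e6]
    linarith
  have h5 : (a ^ 4 + a ^ 3 * b + a ^ 2 * b ^ 2 + a * b ^ 3 + b ^ 4) / (a ^ 5 * b ^ 5) ≤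
      81920 / R ^ 6 := by
    rw [div_le_div_iff₀ (by positivity) (by positivity)]
    calc (a ^ 4 + a ^ 3 * b + a ^ 2 * b ^ 2 + a * b ^ 3 + b ^ 4) * R ^ 6 ≤ 80 * R ^ 4 * R ^ 6 :=
          mul_le_mul_of_nonneg_right h4 (by positivity)
      _ = 81920 * ((R / 2) ^ 5 * (R / 2) ^ 5) := by ring
      _ ≤ 81920 * (a ^ 5 * b ^ 5) := mul_le_mul_of_nonneg_left h3 (by norm_num)
  have h6 : 1 / a ^ 5 - 1 / b ^ 5 =
      (b - a) * ((a ^ 4 + a ^ 3 * b + a ^ 2 * b ^ 2 + a * b ^ 3 + b ^ 4) / (a ^ 5 * b ^ 5)) := by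
    field_simp
    ring
  rw [h6, abs_mul, abs_sub_comm b a, abs_of_nonneg (by positivity : 0 ≤
    (a ^ 4 + a ^ 3 * b + a ^ 2 * b ^ 2 + a * b ^ 3 + b ^ 4) / (a ^ 5 * b ^ 5))]
  calc |a - b| * ((a ^ 4 + a ^ 3 * b + a ^ 2 * b ^ 2 + a * b ^ 3 + b ^ 4) / (a ^ 5 * b ^ 5)) ≤
        q * (81920 / R ^ 6) := mul_le_mul hq h5 (by positivity) ((abs_nonneg _).trans hq)
    _ = 81920 * q / R ^ 6 := by ring

theorem KLI : ST_KLI := by
  refine ⟨1000000, by norm_num, ?_⟩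
  intro u v p R hR hu hu2 hv hv2
  have hq := tri u v
  have hq0 : 0 ≤ nr (u - v) := nr_nonneg _
  have i3 := inv3 (nr u) (nr v) (nr (u - v)) R hR hu hu2 hv hv2 hq
  have i5 := inv5 (nr u) (nr v) (nr (u - v)) R hR hu hu2 hv hv2 hq
  set a := nr u with ha
  set b := nr v with hb
  set q := nr (u - v) with hqd
  set P := nr p with hP
  have hP0 : 0 ≤ P := nr_nonneg _
  have ha0 : 0 < a := by linarith
  have hb0 : 0 < b := by linarith
  have hs : |dt u p| ≤ a * P := cs u p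
  have ht : |dt v p| ≤ b * P := cs v p
  have hst : |dt u p - dt v p| ≤ q * P := by
    have h := cs (u - v) p
    have h1 : dt (u - v) p = dt u p - dt v p := by
      unfold dt
      simp only [Pi.sub_apply]
      ring
    rwa [h1] at h
  have hPP : P ^ 2 = p 0 ^ 2 + p 1 ^ 2 + p 2 ^ 2 := nr_sq p
  have hK : K2 u p - K2 v p = 3 * ((dt u p - dt v p) * (dt u p + dt v p) * (1 / a ^ 5)) +
      3 * (dt v p ^ 2 * (1 / a ^ 5 - 1 / b ^ 5)) - P ^ 2 * (1 / a ^ 3 - 1 / b ^ 3) := by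
    unfold K2
    rw [← hPP, ← ha, ← hb]
    change 3 * dt u p ^ 2 / a ^ 5 - P ^ 2 / a ^ 3 - (3 * dt v p ^ 2 / b ^ 5 - P ^ 2 / b ^ 3) = _
    ring
  have h1 : |3 * ((dt u p - dt v p) * (dt u p + dt v p) * (1 / a ^ 5))| ≤
      384 * (P ^ 2 * q / R ^ 4) := by
    rw [abs_mul, abs_mul, abs_mul, abs_of_pos (by norm_num : (0:ℝ) < 3),
      abs_of_pos (by positivity : 0 < 1 / a ^ 5)]
    have g1 : |dt u p + dt v p| ≤ 4 * R * P := by
      calc |dt u p + dt v p| ≤ |dt u p| + |dt v p| := abs_add_le _ _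
        _ ≤ a * P + b * P := add_le_add hs ht
        _ ≤ 2 * R * P + 2 * R * P := add_le_add (mul_le_mul_of_nonneg_right hu2 hP0)
            (mul_le_mul_of_nonneg_right hv2 hP0)
        _ = 4 * R * P := by ring
    have g2 : 1 / a ^ 5 ≤ 1 / (R / 2) ^ 5 :=
      one_div_le_one_div_of_le (by positivity) (pow_le_pow_left₀ (by positivity) hu 5)
    calc 3 * (|dt u p - dt v p| * |dt u p + dt v p| * (1 / a ^ 5)) ≤
          3 * (q * P * (4 * R * P) * (1 / (R / 2) ^ 5)) := by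
          refine mul_le_mul_of_nonneg_left ?_ (by norm_num)
          refine mul_le_mul (mul_le_mul hst g1 (abs_nonneg _) (by positivity)) g2
            (by positivity) (by positivity)
      _ = 384 * (P ^ 2 * q / R ^ 4) := by
          field_simp
          ring
  have h2 : |3 * (dt v p ^ 2 * (1 / a ^ 5 - 1 / b ^ 5))| ≤ 983040 * (P ^ 2 * q / R ^ 4) := by
    rw [abs_mul, abs_mul, abs_of_pos (by norm_num : (0:ℝ) < 3), abs_pow]
    have g1 : |dt v p| ^ 2 ≤ (2 * R * P) ^ 2 :=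
      pow_le_pow_left₀ (abs_nonneg _) (ht.trans (mul_le_mul_of_nonneg_right hv2 hP0)) 2
    calc 3 * (|dt v p| ^ 2 * |1 / a ^ 5 - 1 / b ^ 5|) ≤
          3 * ((2 * R * P) ^ 2 * (81920 * q / R ^ 6)) := by
          refine mul_le_mul_of_nonneg_left ?_ (by norm_num)
          exact mul_le_mul g1 i5 (abs_nonneg _) (by positivity)
      _ = 983040 * (P ^ 2 * q / R ^ 4) := by
          field_simp
          ring
  have h3 : |P ^ 2 * (1 / a ^ 3 - 1 / b ^ 3)| ≤ 768 * (P ^ 2 * q / R ^ 4) := by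
    rw [abs_mul, abs_of_nonneg (by positivity : 0 ≤ P ^ 2)]
    calc P ^ 2 * |1 / a ^ 3 - 1 / b ^ 3| ≤ P ^ 2 * (768 * q / R ^ 4) :=
          mul_le_mul_of_nonneg_left i3 (by positivity)
      _ = 768 * (P ^ 2 * q / R ^ 4) := by ring
  have h4 : 0 ≤ P ^ 2 * q / R ^ 4 := by positivity
  have h5 : 1000000 * P ^ 2 * q / R ^ 4 = 1000000 * (P ^ 2 * q / R ^ 4) := by ring
  rw [h5, hK]
  rw [abs_le] at h1 h2 h3 ⊢
  constructor <;> linarith [h1.1, h1.2, h2.1, h2.2, h3.1, h3.2]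

end Pool.Agent.Helper87.HT
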